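import Pool.Agent.H41.AL.Defs

set_option autoImplicit false

/-!
# Correspondence packings (helper41), task FACTOR (helper686): disjoint perfect matchings
-/

namespace Pool.Agent.H686.AL

open Pool.Agent.H41.AL
open Equiv

/-- A regular bipartite multigraph splits into perfect matchings. -/
theorem split {V E : Type} [Fintype V] [DecidableEq V] [DecidableEq E] (tail head : E → V)
    (D : ℕ) : ∀ S : Finset E, (∀ v, (S.filter fun e => tail e = v).card = D) →
      (∀ v, (S.filter fun e => head e = v).card = D) →
      ∃ c : E → ℕ, (∀ e ∈ S, c e < D) ∧ (∀ v, ∀ i < D, ∃ e ∈ S, tail e = v ∧ c e = i) ∧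
        (∀ v, ∀ i < D, ∃ e ∈ S, head e = v ∧ c e = i) ∧
        (∀ e ∈ S, ∀ e' ∈ S, tail e = tail e' → c e = c e' → e = e') ∧
        (∀ e ∈ S, ∀ e' ∈ S, head e = head e' → c e = c e' → e = e') := by
  induction D with
  | zero =>
    intro S h1 _
    have h0 : ∀ e, e ∉ S := by
      intro e he
      have h2 := h1 (tail e)
      rw [Finset.card_eq_zero] at h2
      have h3 : e ∈ S.filter fun e' => tail e' = tail e := Finset.mem_filter.2 ⟨he, rfl⟩
      rw [h2] at h3
      exact absurd h3 (Finset.notMem_empty e)
    refine ⟨fun _ => 0, fun e he => absurd he (h0 e), fun _ i hi => absurd hi (Nat.not_lt_zero i),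
      fun _ i hi => absurd hi (Nat.not_lt_zero i), fun e he => absurd he (h0 e),
      fun e he => absurd he (h0 e)⟩
  | succ D ih =>
    intro S h1 h2
    have hall : ∀ s : Finset V,
        s.card ≤ (s.biUnion fun v => (S.filter fun e => tail e = v).image head).card := by
      intro s
      have e1 : (S.filter fun e => tail e ∈ s).card = (D + 1) * s.card := by
        have hmt : Set.MapsTo tail ((S.filter fun e => tail e ∈ s : Finset E) : Set E)
            (s : Set V) := fun e he => (Finset.mem_filter.1 (Finset.mem_coe.1 he)).2
        rw [Finset.card_eq_sum_card_fiberwise hmt]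
        have : ∀ v ∈ s, ((S.filter fun e => tail e ∈ s).filter fun e => tail e = v).card =
            D + 1 := by
          intro v hv
          rw [← h1 v, Finset.filter_filter]
          congr 1
          apply Finset.filter_congr
          intro e _
          constructor
          · exact fun h => h.2
          · exact fun h => ⟨by rw [h]; exact hv, h⟩
        rw [Finset.sum_congr rfl this, Finset.sum_const, smul_eq_mul, mul_comm]
      have e2 : ∀ T : Finset V, (S.filter fun e => head e ∈ T).card = (D + 1) * T.card := by
        intro T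
        have hmt : Set.MapsTo head ((S.filter fun e => head e ∈ T : Finset E) : Set E)
            (T : Set V) := fun e he => (Finset.mem_filter.1 (Finset.mem_coe.1 he)).2
        rw [Finset.card_eq_sum_card_fiberwise hmt]
        have : ∀ v ∈ T, ((S.filter fun e => head e ∈ T).filter fun e => head e = v).card =
            D + 1 := by
          intro v hv
          rw [← h2 v, Finset.filter_filter]
          congr 1
          apply Finset.filter_congr
          intro e _
          constructor
          · exact fun h => h.2
          · exact fun h => ⟨by rw [h]; exact hv, h⟩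
        rw [Finset.sum_congr rfl this, Finset.sum_const, smul_eq_mul, mul_comm]
      have e3 : (S.filter fun e => tail e ∈ s).card ≤
          (S.filter fun e => head e ∈
            (s.biUnion fun v => (S.filter fun e => tail e = v).image head)).card := by
        apply Finset.card_le_card
        intro e he
        rw [Finset.mem_filter] at he ⊢
        refine ⟨he.1, ?_⟩
        rw [Finset.mem_biUnion]
        exact ⟨tail e, he.2, Finset.mem_image.2 ⟨e, Finset.mem_filter.2 ⟨he.1, rfl⟩, rfl⟩⟩
      rw [e1, e2] at e3
      exact Nat.le_of_mul_le_mul_left e3 (Nat.succ_pos D)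
    obtain ⟨f, hf, hft⟩ := (Finset.all_card_le_biUnion_card_iff_exists_injective _).1 hall
    have hg : ∀ v, ∃ e, e ∈ S ∧ tail e = v ∧ head e = f v := by
      intro v
      have := hft v
      rw [Finset.mem_image] at this
      obtain ⟨e, he, he2⟩ := this
      rw [Finset.mem_filter] at he
      exact ⟨e, he.1, he.2, he2⟩
    choose g hgS hgt hgh using hg
    have hfs : Function.Surjective f := Finite.surjective_of_injective hf
    obtain ⟨c, c1, c2, c3, c4, c5⟩ := ih (S.filter fun e => e ≠ g (tail e)) (by
      intro v
      have e1 : ((S.filter fun e => e ≠ g (tail e)).filter fun e => tail e = v) =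
          (S.filter fun e => tail e = v).erase (g v) := by
        ext e
        simp only [Finset.mem_filter, Finset.mem_erase]
        constructor
        · rintro ⟨⟨a1, a2⟩, a3⟩
          rw [a3] at a2
          exact ⟨a2, a1, a3⟩
        · rintro ⟨a2, a1, a3⟩
          refine ⟨⟨a1, ?_⟩, a3⟩
          rw [a3]
          exact a2
      rw [e1, Finset.card_erase_of_mem (Finset.mem_filter.2 ⟨hgS v, hgt v⟩), h1]
      rfl) (by
      intro w
      obtain ⟨v, rfl⟩ := hfs w
      have e1 : ((S.filter fun e => e ≠ g (tail e)).filter fun e => head e = f v) =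
          (S.filter fun e => head e = f v).erase (g v) := by
        ext e
        simp only [Finset.mem_filter, Finset.mem_erase]
        constructor
        · rintro ⟨⟨a1, a2⟩, a3⟩
          refine ⟨?_, a1, a3⟩
          intro h
          apply a2
          rw [h, hgt]
        · rintro ⟨a2, a1, a3⟩
          refine ⟨⟨a1, ?_⟩, a3⟩
          intro h
          apply a2
          have h3 : f (tail e) = f v := by
            rw [← hgh, ← h, a3]
          rw [h, hf h3]
      rw [e1, Finset.card_erase_of_mem (Finset.mem_filter.2 ⟨hgS v, hgh v⟩), h2]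
      rfl)
    have hc : ∀ e ∈ S, (e = g (tail e) ∧ (if e = g (tail e) then D else c e) = D) ∨
        (e ∈ (S.filter fun e => e ≠ g (tail e)) ∧ c e < D ∧
          (if e = g (tail e) then D else c e) = c e) := by
      intro e he
      by_cases h : e = g (tail e)
      · left
        exact ⟨h, if_pos h⟩
      · right
        have h' : e ∈ (S.filter fun e => e ≠ g (tail e)) := Finset.mem_filter.2 ⟨he, h⟩
        exact ⟨h', c1 e h', if_neg h⟩
    refine ⟨fun e => if e = g (tail e) then D else c e, ?_, ?_, ?_, ?_, ?_⟩
    · intro e he
      rcases hc e he with h | h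
      · show (if e = g (tail e) then D else c e) < D + 1
        rw [h.2]
        exact Nat.lt_succ_self D
      · show (if e = g (tail e) then D else c e) < D + 1
        rw [h.2.2]
        exact Nat.lt_succ_of_lt h.2.1
    · intro v i hi
      rcases Nat.lt_succ_iff_lt_or_eq.1 hi with h | h
      · obtain ⟨e, he, he1, he2⟩ := c2 v i h
        have he' := Finset.mem_filter.1 he
        refine ⟨e, he'.1, he1, ?_⟩
        show (if e = g (tail e) then D else c e) = i
        rw [if_neg he'.2, he2]
      · refine ⟨g v, hgS v, hgt v, ?_⟩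
        show (if g v = g (tail (g v)) then D else c (g v)) = i
        rw [hgt, if_pos rfl, h]
    · intro w i hi
      rcases Nat.lt_succ_iff_lt_or_eq.1 hi with h | h
      · obtain ⟨e, he, he1, he2⟩ := c3 w i h
        have he' := Finset.mem_filter.1 he
        refine ⟨e, he'.1, he1, ?_⟩
        show (if e = g (tail e) then D else c e) = i
        rw [if_neg he'.2, he2]
      · obtain ⟨v, rfl⟩ := hfs w
        refine ⟨g v, hgS v, hgh v, ?_⟩
        show (if g v = g (tail (g v)) then D else c (g v)) = i
        rw [hgt, if_pos rfl, h]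
    · intro e he e' he' ht hcc
      change (if e = g (tail e) then D else c e) = (if e' = g (tail e') then D else c e') at hcc
      rcases hc e he with h | h <;> rcases hc e' he' with h' | h'
      · rw [h.1, h'.1, ht]
      · rw [h.2, h'.2.2] at hcc
        have := h'.2.1
        omega
      · rw [h.2.2, h'.2] at hcc
        have := h.2.1
        omega
      · rw [h.2.2, h'.2.2] at hcc
        exact c4 e h.1 e' h'.1 ht hcc
    · intro e he e' he' ht hcc
      change (if e = g (tail e) then D else c e) = (if e' = g (tail e') then D else c e') at hcc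
      rcases hc e he with h | h <;> rcases hc e' he' with h' | h'
      · have h3 : f (tail e) = f (tail e') := by
          rw [← hgh, ← hgh, ← h.1, ← h'.1, ht]
        rw [h.1, h'.1, hf h3]
      · rw [h.2, h'.2.2] at hcc
        have := h'.2.1
        omega
      · rw [h.2.2, h'.2] at hcc
        have := h.2.1
        omega
      · rw [h.2.2, h'.2.2] at hcc
        exact c5 e h.1 e' h'.1 ht hcc

/-- Step (a): an `L`-regular spanning subgraph. -/
theorem regular {n L : ℕ} (E : Finset (Fin n × Fin n))
    (h : ∀ S T : Finset (Fin n),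
      L * (S.card + T.card) ≤ (E.filter fun p => p.1 ∈ S ∧ p.2 ∈ T).card + L * n) :
    ∃ H : Finset (Fin n × Fin n), H ⊆ E ∧ (∀ j, (H.filter fun p => p.1 = j).card = L) ∧
      ∀ c, (H.filter fun p => p.2 = c).card = L := by
  classical
  -- column degrees
  have hdeg : ∀ c, L ≤ (E.filter fun p => p.2 = c).card := by
    intro c
    have h1 := h Finset.univ {c}
    rw [Finset.card_univ, Fintype.card_fin, Finset.card_singleton] at h1
    have h2 : (E.filter fun p => p.1 ∈ (Finset.univ : Finset (Fin n)) ∧ p.2 ∈ ({c} : Finset (Fin n)))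
        = E.filter fun p => p.2 = c := by
      apply Finset.filter_congr
      intro p _
      simp
    rw [h2] at h1
    nlinarith
  -- counting by columns
  have hcol : ∀ (F : Finset (Fin n × Fin n)) (T : Finset (Fin n)),
      (F.filter fun p => p.2 ∈ T).card = ∑ c ∈ T, (F.filter fun p => p.2 = c).card := by
    intro F T
    have hmt : Set.MapsTo Prod.snd ((F.filter fun p => p.2 ∈ T : Finset (Fin n × Fin n)) :
        Set (Fin n × Fin n)) (T : Set (Fin n)) :=
      fun e he => (Finset.mem_filter.1 (Finset.mem_coe.1 he)).2
    rw [Finset.card_eq_sum_card_fiberwise hmt]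
    apply Finset.sum_congr rfl
    intro c hc
    rw [Finset.filter_filter]
    congr 1
    apply Finset.filter_congr
    intro e _
    constructor
    · exact fun h => h.2
    · exact fun h => ⟨by rw [h]; exact hc, h⟩
  let ι := (Fin n × Fin L) ⊕ (Σ c : Fin n, Fin ((E.filter fun p => p.2 = c).card - L))
  let t : ι → Finset (Fin n × Fin n) := fun x => match x with
    | Sum.inl q => E.filter fun p => p.1 = q.1
    | Sum.inr q => E.filter fun p => p.2 = q.1
  have hall : ∀ X : Finset ι, X.card ≤ (X.biUnion t).card := by
    intro X
    let S : Finset (Fin n) := Finset.univ.filter fun j => ∃ i : Fin L, (Sum.inl (j, i) : ι) ∈ X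
    let T : Finset (Fin n) := Finset.univ.filter fun c =>
      ∃ i : Fin ((E.filter fun p => p.2 = c).card - L), (Sum.inr ⟨c, i⟩ : ι) ∈ X
    have hX : X.card ≤ L * S.card + ∑ c ∈ T, ((E.filter fun p => p.2 = c).card - L) := by
      have hsub : X ⊆ (S ×ˢ (Finset.univ : Finset (Fin L))).disjSum
          (T.sigma fun _ => Finset.univ) := by
        intro x hx
        rcases x with ⟨j, i⟩ | ⟨c, i⟩
        · rw [Finset.inl_mem_disjSum]
          exact Finset.mem_product.2 ⟨Finset.mem_filter.2 ⟨Finset.mem_univ _, i, hx⟩,
            Finset.mem_univ _⟩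
        · rw [Finset.inr_mem_disjSum]
          exact Finset.mem_sigma.2 ⟨Finset.mem_filter.2 ⟨Finset.mem_univ _, i, hx⟩,
            Finset.mem_univ _⟩
      refine (Finset.card_le_card hsub).trans (le_of_eq ?_)
      rw [Finset.card_disjSum, Finset.card_product, Finset.card_univ, Fintype.card_fin,
        Finset.card_sigma, mul_comm]
      congr 1
      apply Finset.sum_congr rfl
      intro c _
      rw [Finset.card_univ, Fintype.card_fin]
    have hN : (E.filter fun p => p.2 ∈ T).card +
        (E.filter fun p => p.1 ∈ S ∧ p.2 ∈ Tᶜ).card ≤ (X.biUnion t).card := by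
      rw [← Finset.card_union_of_disjoint]
      · apply Finset.card_le_card
        intro p hp
        rw [Finset.mem_biUnion]
        rcases Finset.mem_union.1 hp with hp | hp
        · obtain ⟨h1, h2⟩ := Finset.mem_filter.1 hp
          obtain ⟨i, hi⟩ := (Finset.mem_filter.1 h2).2
          exact ⟨_, hi, Finset.mem_filter.2 ⟨h1, rfl⟩⟩
        · obtain ⟨h1, h2, _⟩ := Finset.mem_filter.1 hp
          obtain ⟨i, hi⟩ := (Finset.mem_filter.1 h2).2
          exact ⟨_, hi, Finset.mem_filter.2 ⟨h1, rfl⟩⟩
      · rw [Finset.disjoint_left]
        intro p h1 h2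
        exact (Finset.mem_compl.1 (Finset.mem_filter.1 h2).2.2) (Finset.mem_filter.1 h1).2
    have hST := h S Tᶜ
    rw [Finset.card_compl, Fintype.card_fin] at hST
    have hTn : T.card ≤ n := by
      have := Finset.card_le_univ T
      rwa [Fintype.card_fin] at this
    have hsum : ∑ c ∈ T, ((E.filter fun p => p.2 = c).card - L) + L * T.card =
        ∑ c ∈ T, (E.filter fun p => p.2 = c).card := by
      rw [mul_comm, ← smul_eq_mul, ← Finset.sum_const, ← Finset.sum_add_distrib]
      apply Finset.sum_congr rfl
      intro c _
      exact Nat.sub_add_cancel (hdeg c)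
    rw [hcol, ← hsum] at hN
    have hLT : L * (S.card + (n - T.card)) + L * T.card = L * S.card + L * n := by
      rw [← mul_add, ← mul_add]
      congr 1
      omega
    omega
  obtain ⟨f, hf, hft⟩ := (Finset.all_card_le_biUnion_card_iff_exists_injective t).1 hall
  have hftl : ∀ q : Fin n × Fin L, f (Sum.inl q) ∈ E ∧ (f (Sum.inl q)).1 = q.1 :=
    fun q => Finset.mem_filter.1 (hft (Sum.inl q))
  have hftr : ∀ q : (Σ c : Fin n, Fin ((E.filter fun p => p.2 = c).card - L)),
      f (Sum.inr q) ∈ E ∧ (f (Sum.inr q)).2 = q.1 :=
    fun q => Finset.mem_filter.1 (hft (Sum.inr q))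
  have hcard : Fintype.card ι = E.card := by
    have e1 : Fintype.card ι = n * L + ∑ c : Fin n, ((E.filter fun p => p.2 = c).card - L) := by
      show Fintype.card ((Fin n × Fin L) ⊕ (Σ c : Fin n, Fin ((E.filter fun p => p.2 = c).card - L))) = _
      rw [Fintype.card_sum, Fintype.card_prod, Fintype.card_fin, Fintype.card_fin,
        Fintype.card_sigma]
      congr 1
      apply Finset.sum_congr rfl
      intro c _
      rw [Fintype.card_fin]
    have e2 : E.card = ∑ c : Fin n, (E.filter fun p => p.2 = c).card := by
      rw [← hcol]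
      congr 1
      ext p
      simp
    have e3 : ∑ c : Fin n, ((E.filter fun p => p.2 = c).card - L) + n * L =
        ∑ c : Fin n, (E.filter fun p => p.2 = c).card := by
      have : n * L = ∑ _c : Fin n, L := by
        rw [Finset.sum_const, Finset.card_univ, Fintype.card_fin, smul_eq_mul]
      rw [this, ← Finset.sum_add_distrib]
      apply Finset.sum_congr rfl
      intro c _
      exact Nat.sub_add_cancel (hdeg c)
    rw [e1, e2, ← e3, add_comm]
  have himg : Finset.univ.image f = E := by
    apply Finset.eq_of_subset_of_card_le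
    · intro p hp
      obtain ⟨x, _, rfl⟩ := Finset.mem_image.1 hp
      rcases x with q | q
      · exact (hftl q).1
      · exact (hftr q).1
    · rw [Finset.card_image_of_injective _ hf, Finset.card_univ, hcard]
  have hsurj : ∀ p ∈ E, ∃ x, f x = p := by
    intro p hp
    rw [← himg] at hp
    obtain ⟨x, _, hx⟩ := Finset.mem_image.1 hp
    exact ⟨x, hx⟩
  refine ⟨Finset.univ.image fun q : Fin n × Fin L => f (Sum.inl q), ?_, ?_, ?_⟩
  · intro p hp
    obtain ⟨q, _, rfl⟩ := Finset.mem_image.1 hp
    exact (hftl q).1
  · intro j
    have e1 : ((Finset.univ.image fun q : Fin n × Fin L => f (Sum.inl q)).filter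
        fun p => p.1 = j) = Finset.univ.image fun i : Fin L => f (Sum.inl (j, i)) := by
      ext p
      rw [Finset.mem_filter, Finset.mem_image, Finset.mem_image]
      constructor
      · rintro ⟨⟨q, _, rfl⟩, h2⟩
        rw [(hftl q).2] at h2
        exact ⟨q.2, Finset.mem_univ _, by rw [← h2]⟩
      · rintro ⟨i, _, rfl⟩
        exact ⟨⟨(j, i), Finset.mem_univ _, rfl⟩, (hftl (j, i)).2⟩
    rw [e1, Finset.card_image_of_injective, Finset.card_univ, Fintype.card_fin]
    intro i i' hii
    have := Sum.inl_injective (hf hii)
    exact (Prod.mk.inj this).2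
  · intro c
    have e1 : (E.filter fun p => p.2 = c) =
        ((Finset.univ.image fun q : Fin n × Fin L => f (Sum.inl q)).filter fun p => p.2 = c) ∪
        (Finset.univ.image fun i : Fin ((E.filter fun p => p.2 = c).card - L) =>
          f (Sum.inr ⟨c, i⟩)) := by
      ext p
      rw [Finset.mem_union, Finset.mem_filter, Finset.mem_filter, Finset.mem_image,
        Finset.mem_image]
      constructor
      · rintro ⟨h1, h2⟩
        obtain ⟨x, rfl⟩ := hsurj p h1
        rcases x with q | ⟨c', i⟩
        · exact Or.inl ⟨⟨q, Finset.mem_univ _, rfl⟩, h2⟩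
        · right
          rw [(hftr ⟨c', i⟩).2] at h2
          have h3 : c' = c := h2
          subst h3
          exact ⟨i, Finset.mem_univ _, rfl⟩
      · rintro (⟨⟨q, _, rfl⟩, h2⟩ | ⟨i, _, rfl⟩)
        · exact ⟨(hftl q).1, h2⟩
        · exact ⟨(hftr ⟨c, i⟩).1, (hftr ⟨c, i⟩).2⟩
    have e2 : Disjoint
        ((Finset.univ.image fun q : Fin n × Fin L => f (Sum.inl q)).filter fun p => p.2 = c)
        (Finset.univ.image fun i : Fin ((E.filter fun p => p.2 = c).card - L) =>
          f (Sum.inr ⟨c, i⟩)) := by
      rw [Finset.disjoint_left]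
      intro p h1 h2
      obtain ⟨q, _, h3⟩ := Finset.mem_image.1 (Finset.mem_filter.1 h1).1
      obtain ⟨i, _, h4⟩ := Finset.mem_image.1 h2
      exact absurd (hf (h3.trans h4.symm)) (by simp)
    have e3 : (Finset.univ.image fun i : Fin ((E.filter fun p => p.2 = c).card - L) =>
          f (Sum.inr ⟨c, i⟩)).card = (E.filter fun p => p.2 = c).card - L := by
      rw [Finset.card_image_of_injective, Finset.card_univ, Fintype.card_fin]
      intro i i' hii
      have h5 := Sum.inr_injective (hf hii)
      exact eq_of_heq (Sigma.mk.inj h5).2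
    have e4 := congrArg Finset.card e1
    rw [Finset.card_union_of_disjoint e2, e3] at e4
    have := hdeg c
    omega

/-- F6 -/
theorem factor : S_FACTOR := by
  classical
  intro n L B inst h
  obtain ⟨H, hHE, hrow, hcl⟩ := regular (L := L)
    (Finset.univ.filter fun p : Fin n × Fin n => B p.1 p.2) (by
      intro S T
      refine (h S T).trans (le_of_eq ?_)
      congr 2
      ext p
      simp only [Finset.mem_filter, Finset.mem_product, Finset.mem_univ, true_and]
      tauto)
  obtain ⟨c, c1, c2, _, c4, c5⟩ := split (Prod.fst : Fin n × Fin n → Fin n) Prod.snd L H hrow hcl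
  have hg : ∀ (k : Fin L) (j : Fin n), ∃ e, e ∈ H ∧ e.1 = j ∧ c e = (k : ℕ) := by
    intro k j
    obtain ⟨e, he, h1, h2⟩ := c2 j k k.2
    exact ⟨e, he, h1, h2⟩
  choose g gH g1 gc using hg
  have hinj : ∀ k, Function.Injective fun j => (g k j).2 := by
    intro k j j' hjj
    have h1 : g k j = g k j' := c5 _ (gH k j) _ (gH k j') hjj (by rw [gc, gc])
    rw [← g1 k j, ← g1 k j', h1]
  refine ⟨fun k => Equiv.ofBijective _ (Finite.injective_iff_bijective.1 (hinj k)), ?_, ?_⟩
  · intro k k' hk j hj
    apply hk
    have hj' : (g k j).2 = (g k' j).2 := hj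
    have h1 : g k j = g k' j := Prod.ext (by rw [g1, g1]) hj'
    have h2 := gc k j
    rw [h1, gc] at h2
    exact (Fin.ext h2).symm
  · intro k j
    show B j (g k j).2
    have h1 := (Finset.mem_filter.1 (hHE (gH k j))).2
    rwa [g1] at h1

end Pool.Agent.H686.AL
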